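import Pool.Agent.H523R2.Corner.Codes

/-!
A faster test of peeling certificates (with a table of the positions of the cells).
-/

namespace Pool.Agent.E8helper94.Corner

open Finset Pool.Agent.H523R2.Corner

/-- Boolean test of a peeling certificate. `pos x y` is `s + 1` for the cell number `s`. -/
def chk2 (k m : ℕ) (xc yc ce : ℕ → ℕ) (pos : ℕ → ℕ → ℕ) : Bool :=
  (List.range m).all (fun s =>
    decide (xc s < 2 ^ k) && decide (yc s < 2 ^ k) && decide (ce s < 3) &&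
    decide (pos (xc s) (yc s) = s + 1) &&
    (!decide (ce s = 0) || (List.range (2 ^ k)).all (fun d =>
      decide (pos (xc s) (yc s ^^^ d) ≤ s + 1) || decide (pos (xc s ^^^ d) (yc s) ≤ s + 1))) &&
    (!decide (ce s = 1) || (List.range (2 ^ k)).all (fun d =>
      decide (pos (xc s) (yc s ^^^ d) ≤ s + 1) ||
        decide (pos (xc s ^^^ d) (yc s ^^^ d) ≤ s + 1))) &&
    (!decide (ce s = 2) || (List.range (2 ^ k)).all (fun d =>
      decide (pos (xc s ^^^ d) (yc s) ≤ s + 1) ||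
        decide (pos (xc s ^^^ d) (yc s ^^^ d) ≤ s + 1))))

theorem main_chk2 {k m D p q : ℕ} (xc yc ce : ℕ → ℕ) (pos : ℕ → ℕ → ℕ) (an bn cn : ℕ → ℕ)
    (hD : 0 < D) (hp : 0 < p) (hq : 0 < q) (hchk : chk2 k m xc yc ce pos = true)
    (ha : ∑ x : Fin k → ZMod 2, an (idx x) ^ p ≤ D ^ p)
    (hb : ∑ x : Fin k → ZMod 2, bn (idx x) ^ p ≤ D ^ p)
    (hc : ∑ x : Fin k → ZMod 2, cn (idx x) ^ p ≤ D ^ p)
    (hC : D ^ (3 * q) < ∑ s : Fin m, (an (idx (bits k (xc s))) * bn (idx (bits k (yc s)))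
      * cn (idx (bits k (xc s ^^^ yc s)))) ^ q) :
    ∃ n0 : ℕ, ∀ n : ℕ, n0 ≤ n → ∃ S : Finset ((Fin n → ZMod 2) × (Fin n → ZMod 2)),
      CornerFree S ∧ 2 ^ (3 * q * n) ≤ S.card ^ p := by
  simp only [chk2, List.all_eq_true, List.mem_range, Bool.and_eq_true, Bool.or_eq_true,
    Bool.not_eq_true', decide_eq_true_eq, decide_eq_false_iff_not] at hchk
  have H := fun a ha => (hchk a ha)
  have hx : ∀ s < m, xc s < 2 ^ k := fun s hs => (H s hs).1.1.1.1.1.1
  have hy : ∀ s < m, yc s < 2 ^ k := fun s hs => (H s hs).1.1.1.1.1.2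
  have hpos : ∀ s < m, pos (xc s) (yc s) = s + 1 := fun s hs => (H s hs).1.1.1.2
  have xx : ∀ u v : ℕ, u ^^^ (u ^^^ v) = v := fun u v => by
    rw [← Nat.xor_assoc, Nat.xor_self, Nat.zero_xor]
  refine main_codes xc yc ce an bn cn hD hp hq hx hy ?_ ?_ ?_ ?_
    (fun s hs => (H s hs).1.1.1.1.2) ha hb hc hC
  · intro s hs t ht h h'
    have h1 := hpos s hs
    rw [h, h', hpos t ht] at h1
    omega
  · intro a ha h b hb hab hX c hc hac hY hZ
    rcases (H a ha).1.1.2 with q1 | q1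
    · exact absurd h q1
    have hd : yc a ^^^ yc b = xc a ^^^ xc c := by
      have h2 : xc a ^^^ yc b = xc c ^^^ yc a := by rw [hX, hZ, hY]
      have h3 : yc b = xc a ^^^ (xc c ^^^ yc a) := by rw [← h2, xx]
      rw [h3, ← Nat.xor_assoc (xc a), Nat.xor_comm (yc a), Nat.xor_assoc (xc a ^^^ xc c),
        Nat.xor_self, Nat.xor_zero]
    have h4 := q1 (yc a ^^^ yc b) (Nat.xor_lt_two_pow (hy a ha) (hy b hb))
    rw [xx] at h4
    rw [hd, xx] at h4
    rw [hX, hpos b hb, hY, hpos c hc] at h4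
    omega
  · intro b hb h a ha hba hX c hc hbc hY hZ
    rcases (H b hb).1.2 with q1 | q1
    · exact absurd h q1
    have hd : yc b ^^^ yc a = xc b ^^^ xc c := by
      have h2 : xc b ^^^ yc b = xc c ^^^ yc a := by rw [hZ, hY]
      have h3 : xc b ^^^ (xc b ^^^ yc b) = xc b ^^^ (xc c ^^^ yc a) := by rw [h2]
      rw [xx] at h3
      rw [h3, ← Nat.xor_assoc (xc b), Nat.xor_assoc (xc b ^^^ xc c), Nat.xor_self, Nat.xor_zero]
    have h4 := q1 (yc b ^^^ yc a) (Nat.xor_lt_two_pow (hy b hb) (hy a ha))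
    rw [xx] at h4
    rw [hd, xx] at h4
    rw [← hX, hpos a ha, hY, hpos c hc] at h4
    omega
  · intro c hc h a ha hca hY b hb hcb hX hZ
    rcases (H c hc).2 with q1 | q1
    · exact absurd h q1
    have hd : xc c ^^^ xc a = yc c ^^^ yc b := by
      have h2 : xc a ^^^ yc b = xc c ^^^ yc c := by rw [hX, hZ]
      have h3 : xc a = xc c ^^^ yc c ^^^ yc b := by
        rw [← h2, Nat.xor_assoc, Nat.xor_self, Nat.xor_zero]
      rw [h3, Nat.xor_assoc (xc c), xx]
    have h4 := q1 (xc c ^^^ xc a) (Nat.xor_lt_two_pow (hx c hc) (hx a ha))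
    rw [xx] at h4
    rw [hd, xx] at h4
    rw [← hY, hpos a ha, hX, hpos b hb] at h4
    omega

end Pool.Agent.E8helper94.Corner
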