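import Pool.Agent.E8helper94.Corner.Data5

/-!
# Larger corner-free sets in `(F_2^n)^2`

For all large `n` there are corner-free subsets of `F_2^n × F_2^n` with at least
`4^{0.8972 n} = 2^{1.7944 n}` (`> 3.4687^n`) elements.  Hence a power-saving bound
`|A| ≤ C 4^{(1-c)n}` for corner-free sets can only hold with `c ≤ 0.1028`.

The construction takes a set of 453 cells of the addition table of `F_2^5` with a peeling order (each
cell is the vertex opposite to one of the three directions of no corner formed with later cells), the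
words in these cells whose rows, columns and symbols have given types, and a linear compression of
the rows, columns and symbols.
-/

namespace Pool.Agent.E8helper94.Corner.Lower5

open Pool.Agent.H523R2.Corner Finset

/-- `A ⊆ F_2^n × F_2^n` contains no nontrivial corner `(x,y), (x,y+z), (x+z,y)`, `z ≠ 0`. -/
def NoCorner {n : ℕ} (A : Finset ((Fin n → ZMod 2) × (Fin n → ZMod 2))) : Prop :=
  ∀ x y z : Fin n → ZMod 2, z ≠ 0 → ¬ ((x, y) ∈ A ∧ (x, y + z) ∈ A ∧ (x + z, y) ∈ A)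

/-- The number of all triples `(x, y, z)` with `(x, y), (x, y + z), (x + z, y) ∈ A`
(`z = 0` allowed). -/
def corners {n : ℕ} (A : Finset ((Fin n → ZMod 2) × (Fin n → ZMod 2))) : ℕ :=
  #{t : (Fin n → ZMod 2) × (Fin n → ZMod 2) × (Fin n → ZMod 2) |
    (t.1, t.2.1) ∈ A ∧ (t.1, t.2.1 + t.2.2) ∈ A ∧ (t.1 + t.2.2, t.2.1) ∈ A}

lemma corners_eq {n : ℕ} (A : Finset ((Fin n → ZMod 2) × (Fin n → ZMod 2))) (hA : NoCorner A) :
    corners A = #A := by
  unfold corners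
  refine Finset.card_nbij' (fun t => (t.1, t.2.1)) (fun p => (p.1, p.2, 0)) ?_ ?_ ?_ ?_
  · intro t ht
    simp only [Finset.coe_filter, Finset.mem_univ, true_and, Set.mem_ofPred_eq] at ht
    exact ht.1
  · intro p hp
    simp only [Finset.coe_filter, Finset.mem_univ, true_and, Set.mem_ofPred_eq, add_zero]
    exact ⟨hp, hp, hp⟩
  · rintro ⟨x, y, z⟩ ht
    simp only [Finset.coe_filter, Finset.mem_univ, true_and, Set.mem_ofPred_eq] at ht
    have hz : z = 0 := by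
      by_contra hz
      exact hA x y z hz ht
    simp only [hz]
  · rintro ⟨x, y⟩ _
    rfl

lemma lower : ∃ n0 : ℕ, ∀ n : ℕ, n0 ≤ n →
    ∃ A : Finset ((Fin n → ZMod 2) × (Fin n → ZMod 2)),
      NoCorner A ∧ (2 : ℝ) ^ ((1.7944 : ℝ) * n) ≤ A.card := by
  obtain ⟨n0, h⟩ := Pool.Agent.E8helper94.Corner.Data5.main_cert
  refine ⟨n0, fun n hn => ?_⟩
  obtain ⟨A, hA, hc⟩ := h n hn
  refine ⟨A, hA, ?_⟩
  have h1 : (2 : ℝ) ^ (3 * 2243 * n) ≤ (A.card : ℝ) ^ 3750 := by exact_mod_cast hc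
  have h2 : ((2 : ℝ) ^ ((1.7944 : ℝ) * n)) ^ 3750 = (2 : ℝ) ^ (3 * 2243 * n) := by
    rw [← Real.rpow_natCast, ← Real.rpow_mul (by norm_num), ← Real.rpow_natCast]
    congr 1
    push_cast
    ring
  rw [← h2] at h1
  exact le_of_pow_le_pow_left₀ (by norm_num) (by positivity) h1

/-- `2^{1.7944} > 3.4687` -/
lemma base : (3.4687 : ℝ) ≤ (2 : ℝ) ^ (1.7944 : ℝ) := by
  have h : (3.4687 : ℝ) ^ 1250 ≤ ((2 : ℝ) ^ (1.7944 : ℝ)) ^ 1250 := by
    have : ((2 : ℝ) ^ (1.7944 : ℝ)) ^ 1250 = (2 : ℝ) ^ 2243 := by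
      rw [← Real.rpow_natCast, ← Real.rpow_mul (by norm_num), ← Real.rpow_natCast]
      congr 1
      norm_num
    rw [this, show (3.4687 : ℝ) = 34687 / 10000 by norm_num, div_pow, div_le_iff₀ (by positivity)]
    have h0 : (34687 : ℕ) ^ 1250 ≤ 2 ^ 2243 * 10000 ^ 1250 := by decide +kernel
    exact_mod_cast h0
  exact le_of_pow_le_pow_left₀ (by norm_num) (by positivity) h

lemma few {n : ℕ} (hn : 0 < n) (A : Finset ((Fin n → ZMod 2) × (Fin n → ZMod 2)))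
    (hA : NoCorner A) (h : (2 : ℝ) ^ ((1.7944 : ℝ) * n) ≤ A.card) :
    (corners A : ℝ) < 8 ^ n * ((#A : ℝ) / 4 ^ n) ^ (5.86 : ℝ) := by
  have hn' : (0 : ℝ) < n := by exact_mod_cast hn
  rw [corners_eq A hA]
  have ha : (0 : ℝ) < #A := lt_of_lt_of_le (by positivity) h
  set δ : ℝ := (#A : ℝ) / 4 ^ n with hδ
  have hδ0 : 0 < δ := by positivity
  have h4 : (4 : ℝ) ^ n = (2 : ℝ) ^ ((2 : ℝ) * n) := by
    rw [show (4 : ℝ) = (2 : ℝ) ^ (2 : ℝ) by norm_num, ← Real.rpow_natCast, ← Real.rpow_mul (by norm_num)]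
  have hδ1 : (2 : ℝ) ^ ((1.7944 - 2 : ℝ) * n) ≤ δ := by
    rw [hδ, h4, le_div_iff₀ (by positivity), ← Real.rpow_add (by norm_num)]
    refine le_trans (le_of_eq ?_) h
    congr 1
    ring
  have h5 : (1 : ℝ) < 2 ^ n * δ ^ (4.86 : ℝ) := by
    have h6 : ((2 : ℝ) ^ ((1.7944 - 2 : ℝ) * n)) ^ (4.86 : ℝ) ≤ δ ^ (4.86 : ℝ) :=
      Real.rpow_le_rpow (by positivity) hδ1 (by norm_num)
    refine lt_of_lt_of_le ?_ (mul_le_mul_of_nonneg_left h6 (by positivity))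
    rw [← Real.rpow_mul (by norm_num), ← Real.rpow_natCast, ← Real.rpow_add (by norm_num)]
    apply Real.one_lt_rpow (by norm_num)
    nlinarith
  have h7 : 8 ^ n * δ ^ (5.86 : ℝ) = #A * (2 ^ n * δ ^ (4.86 : ℝ)) := by
    rw [show (5.86 : ℝ) = 4.86 + 1 by norm_num, Real.rpow_add hδ0, Real.rpow_one,
      show (8 : ℝ) = 4 * 2 by norm_num, mul_pow]
    have h8 : (#A : ℝ) = 4 ^ n * δ := by rw [hδ]; field_simp
    rw [h8]
    ring
  rw [h7]
  nlinarith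

/-- For all large `n` there is a corner-free `A ⊆ (F_2^n)^2` with
`|A| ≥ 4^{(1 - 0.1028) n} = 2^{1.7944 n} ≥ 3.4687^n`; it has less than `δ^5.86 8^n` corners
`(x,y), (x,y+z), (x+z,y)` (`z = 0` allowed), where `δ = |A| / 4^n` is the density of `A`. -/
theorem main5 : ∃ n0 : ℕ, ∀ n : ℕ, n0 ≤ n →
    ∃ A : Finset ((Fin n → ZMod 2) × (Fin n → ZMod 2)), NoCorner A ∧
      (3.4687 : ℝ) ^ n ≤ (4 : ℝ) ^ ((1 - 0.1028 : ℝ) * n) ∧
      (4 : ℝ) ^ ((1 - 0.1028 : ℝ) * n) ≤ A.card ∧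
      (corners A : ℝ) < 8 ^ n * ((#A : ℝ) / 4 ^ n) ^ (5.86 : ℝ) := by
  obtain ⟨n0, h⟩ := lower
  refine ⟨max n0 1, fun n hn => ?_⟩
  obtain ⟨A, hA, hc⟩ := h n (le_trans (le_max_left _ _) hn)
  have h4 : (4 : ℝ) ^ ((1 - 0.1028 : ℝ) * n) = (2 : ℝ) ^ ((1.7944 : ℝ) * n) := by
    rw [show (4 : ℝ) = (2 : ℝ) ^ (2 : ℝ) by norm_num, ← Real.rpow_mul (by norm_num)]
    congr 1
    ring
  rw [h4]
  refine ⟨A, hA, ?_, hc, few (le_trans (le_max_right _ _) hn) A hA hc⟩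
  rw [Real.rpow_mul (by norm_num), Real.rpow_natCast]
  exact pow_le_pow_left₀ (by norm_num) base n

end Pool.Agent.E8helper94.Corner.Lower5
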